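import Pool.Agent.helper66.JS2.Main2

/-!
`J3||Cmax` parameterized by `p_max + n_max`: fixed-parameter tractability implies non-uniform
fixed-parameter tractability, which is equivalent to the classical statement `Collapse` on
nondeterministic machines with linear space.
-/

set_option autoImplicit false

namespace Pool.Agent.Results.MP_a4d309_lc.ExactFPT

open Pool.Agent.helper66.JS

theorem result : (FPT → NUFPT) ∧ (NUFPT ↔ SliceFPT) ∧ (SliceFPT ↔ Collapse) ∧
    (Collapse → ∀ m : ℕ, 0 < m → NTISP ⊆ DTime2 m) :=
  ⟨nufpt_of_fpt, ⟨slice_of_nufpt, fun h => nufpt_of_collapse (collapse_of_slice h)⟩,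
    ⟨collapse_of_slice, fun h => slice_of_nufpt (nufpt_of_collapse h)⟩, ntisp_of_collapse⟩

end Pool.Agent.Results.MP_a4d309_lc.ExactFPT
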